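import Pool.Agent.Run7.h325.RSI.Main1
import Pool.Agent.Run7.h216.RSI.GINT
import Pool.Agent.Run7.h216.RSI.RAD
import Pool.Agent.Run7.h270.RSI.NRM
import Pool.Agent.Run7.h416.RSI.BMO
import Pool.Agent.Run7.h416.RSI.BUMP
import Pool.Agent.Run7.h437.RSI.PV
import Pool.Agent.Run7.h437.RSI.A2LOC
import Pool.Agent.Run7.h531.RSI.LARGE
import Pool.Agent.Run7.h547.RSI.A2
import Pool.Agent.Run7.h547.RSI.CM
import Pool.Agent.Run7.h554.RSI.PV2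
import Pool.Agent.Run7.h714.RSI.MAIN2
import Pool.Agent.Run7.h83.RSI.LLOW
import Pool.Agent.Run7.h889.RSI.DIR
import Pool.Agent.Run7.h889.RSI.SUM
import Pool.Agent.Run7.h930.RSI.LAM
import Pool.Agent.Run7.h930.RSI.MASS
import Pool.Agent.Run7.h930.RSI.PSI
import Pool.Agent.Run7.h937.RSI.Lat
import Pool.Agent.Run7.h984.RSI.One
import Pool.Agent.Run7.h984.RSI.Two

set_option autoImplicit false

namespace Pool.Agent.Run7.h325.RSI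

theorem p_RAD : S_RAD := _root_.Run7.h216.RSI.t_RAD
theorem p_GINT : S_GINT := _root_.Run7.h216.RSI.t_GINT
theorem p_GRP : S_GRP := Pool.Agent.Run7.h937.RSI.t_GRP
theorem p_LAT : S_LAT := Pool.Agent.Run7.h937.RSI.t_LAT
theorem p_CNT : S_CNT := Pool.Agent.Run7.h937.RSI.t_CNT
theorem p_BUMP : S_BUMP := Pool.Agent.Run7.h416.RSI.t_BUMP
theorem p_A2LOC : S_A2LOC := Pool.Agent.Run7.h437.RSI.t_A2LOC p_RAD p_GINT p_GRP
theorem p_LARGE : S_LARGE := t_LARGE p_RAD p_GINT p_GRP p_LAT p_CNT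
theorem p_A2 : S_A2 := Pool.Agent.Run7.h547.RSI.t_A2 p_RAD p_GRP p_A2LOC p_LAT p_LARGE
theorem p_MASS : S_MASS := _root_.Run7.h930.RSI.MASS.t_MASS p_RAD
theorem p_NRM : S_NRM := Pool.Agent.Run7.h270.RSI.t_NRM p_RAD
theorem p_WM : S_WM := Pool.Agent.Run7.h270.RSI.t_WM p_GINT p_LAT
theorem p_FN : S_FN := Pool.Agent.Run7.h270.RSI.t_FN p_NRM p_LAT
theorem p_SUM : S_SUM := _root_.Run7.h889.RSI.t_SUM
theorem p_DIR : S_DIR := _root_.Run7.h889.RSI.t_DIR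
theorem p_PSI : S_PSI := _root_.Run7.h930.RSI.PSI.t_PSI
theorem p_CM : S_CM := Pool.Agent.Run7.h547.RSI.t_CM p_PSI p_RAD
theorem p_OMG : S_OMG := Pool.Agent.Run7.h984.RSI.t_OMG p_PSI p_CM
theorem p_FFP : S_FFP := Pool.Agent.Run7.h984.RSI.t_FFP p_MASS
theorem p_TLOW : S_TLOW := _root_.Run7.h889.RSI.t_TLOW p_MASS p_SUM p_DIR p_CM p_PSI
theorem p_PV : S_PV := Pool.Agent.Run7.h437.RSI.t_PV
theorem p_FAR : S_FAR := _root_.Run7.h889.RSI.t_FAR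
theorem p_TN : S_TN := Pool.Agent.Run7.h984.RSI.t_TN p_TLOW p_FAR p_FFP p_WM p_LAT p_OMG
theorem p_BBP : S_BBP := Pool.Agent.Run7.h984.RSI.t_BBP p_LAT p_FFP
theorem p_BMO : S_BMO := Pool.Agent.Run7.h416.RSI.t_BMO p_LAT p_CNT p_RAD
theorem p_PV2 : S_PV2 := _root_.Run7.h554.RSI.t_PV2 p_BBP p_FFP
theorem p_LAM : S_LAM := _root_.Run7.h930.RSI.LAM.t_LAM p_BBP p_FFP p_DIR p_WM
theorem p_LLOW : S_LLOW := _root_.Run7.h83.RSI.t_LLOW p_TLOW p_BBP p_WM p_FFP p_DIR p_PSI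
theorem p_SW : S_SW := Pool.Agent.Run7.h984.RSI.t_SW p_WM p_LAT
theorem p_CS : S_CS := Pool.Agent.Run7.h984.RSI.t_CS p_BBP p_SW p_DIR p_FFP

theorem main1 : S_MAIN1 := t_MAIN1 p_BUMP p_A2 p_FN p_OMG p_FFP p_PV p_TN

theorem main2 : S_MAIN2 :=
  Pool.Agent.Run7.h714.RSI.t_MAIN2 p_BUMP p_A2 p_FN p_OMG p_FFP p_PSI p_BMO p_PV2 p_LAM p_LLOW p_SW p_CS

end Pool.Agent.Run7.h325.RSI
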