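import Pool.Agent.Run7.h325.RSI.Stm

set_option autoImplicit false

namespace Pool.Agent.Run7.h325.RSI

open MeasureTheory Filter Topology Metric

theorem t_MAIN1 (hB : S_BUMP) (hA : S_A2) (hF : S_FN) (hO : S_OMG) (hP : S_FFP) (hV : S_PV) (hT : S_TN) :
    S_MAIN1 := by
  rintro ⟨C, hC, h⟩
  -- choose m
  obtain ⟨m0, hm0⟩ := exists_nat_gt (48 * 65536 * 625 * C ^ 2 * Real.exp 24)
  set m : ℕ := m0 + 1 with hm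
  have hm1 : 1 ≤ m := by omega
  have hmR : (1 : ℝ) ≤ m := by exact_mod_cast hm1
  have hbig : 48 * 65536 * 625 * C ^ 2 * Real.exp 24 < (m : ℝ) := by
    have : (m0 : ℝ) ≤ m := by exact_mod_cast (by omega : m0 ≤ m)
    linarith
  obtain ⟨φ, hφ⟩ := hB m hm1
  obtain ⟨hOm, hOb, hOh, hO0, -⟩ := hO m hm1
  obtain ⟨-, hwpos, hA2⟩ := hA m hm1
  obtain ⟨hfs, hfc, -, -⟩ := hP m φ hm1 hφ
  have hex := hV (ff m φ) (Om m) 1 hfs hfc hOm hOb hOh hO0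
  choose T hTl using hex
  have key := h (Om m) 1 hOm hOb hOh hO0 (wt m) (25 * (m : ℝ) ^ 4) hwpos hA2 (ff m φ) hfs hfc T hTl
  have low := hT m φ T hm1 hφ hTl
  have up := hF m φ hm1 hφ
  have h1 : ENNReal.ofReal (4 * (4 : ℝ) ^ (m ^ 4) * ((r0 m ^ 2 * (m : ℝ) ^ 8 / 2) ^ 2 *
      (Real.exp (-12) * (2 * Real.pi * r0 m ^ 2 * (m : ℝ) ^ 4)))) ≤
      ENNReal.ofReal ((C * 1 * (25 * (m : ℝ) ^ 4)) ^ 2 *
        (16 * (4 : ℝ) ^ (m ^ 4) * (Real.exp 12 * (6 * Real.pi * r0 m ^ 2 * (m : ℝ) ^ 4)))) := by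
    have e : ENNReal.ofReal ((C * 1 * (25 * (m : ℝ) ^ 4)) ^ 2 *
        (16 * (4 : ℝ) ^ (m ^ 4) * (Real.exp 12 * (6 * Real.pi * r0 m ^ 2 * (m : ℝ) ^ 4)))) =
        ENNReal.ofReal ((C * 1 * (25 * (m : ℝ) ^ 4)) ^ 2) * ENNReal.ofReal
        (16 * (4 : ℝ) ^ (m ^ 4) * (Real.exp 12 * (6 * Real.pi * r0 m ^ 2 * (m : ℝ) ^ 4))) :=
      ENNReal.ofReal_mul (by positivity)
    rw [e]
    exact low.trans (key.trans (mul_le_mul_right up _))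
  have hr : r0 m = 1 / (16 * (m : ℝ)) := rfl
  have hm0' : (0 : ℝ) < m := by linarith
  have hrpos : 0 < r0 m := by rw [hr]; positivity
  have hpi := Real.pi_pos
  have hE : Real.exp (-12) * Real.exp 24 = Real.exp 12 := by rw [← Real.exp_add]; norm_num
  have h2 : 4 * (4 : ℝ) ^ (m ^ 4) * ((r0 m ^ 2 * (m : ℝ) ^ 8 / 2) ^ 2 *
      (Real.exp (-12) * (2 * Real.pi * r0 m ^ 2 * (m : ℝ) ^ 4))) ≤
      (C * 1 * (25 * (m : ℝ) ^ 4)) ^ 2 *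
        (16 * (4 : ℝ) ^ (m ^ 4) * (Real.exp 12 * (6 * Real.pi * r0 m ^ 2 * (m : ℝ) ^ 4))) := by
    refine (ENNReal.ofReal_le_ofReal_iff ?_).1 h1
    positivity
  -- divide
  have hX : 0 < (4 : ℝ) ^ (m ^ 4) * Real.exp (-12) * (2 * Real.pi * r0 m ^ 2 * (m : ℝ) ^ 4) := by positivity
  have h3 : (4 : ℝ) ^ (m ^ 4) * Real.exp (-12) * (2 * Real.pi * r0 m ^ 2 * (m : ℝ) ^ 4) *
      (4 * (r0 m ^ 2 * (m : ℝ) ^ 8 / 2) ^ 2) ≤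
      (4 : ℝ) ^ (m ^ 4) * Real.exp (-12) * (2 * Real.pi * r0 m ^ 2 * (m : ℝ) ^ 4) *
      ((C * (25 * (m : ℝ) ^ 4)) ^ 2 * 48 * Real.exp 24) := by
    calc _ = 4 * (4 : ℝ) ^ (m ^ 4) * ((r0 m ^ 2 * (m : ℝ) ^ 8 / 2) ^ 2 *
      (Real.exp (-12) * (2 * Real.pi * r0 m ^ 2 * (m : ℝ) ^ 4))) := by ring
      _ ≤ _ := h2
      _ = _ := by rw [← hE]; ring
  have h4 := le_of_mul_le_mul_left h3 hX
  have h5 : 4 * (r0 m ^ 2 * (m : ℝ) ^ 8 / 2) ^ 2 = (m : ℝ) ^ 12 / 65536 := by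
    rw [hr]; field_simp; norm_num
  rw [h5] at h4
  have h6 : (m : ℝ) ^ 12 ≤ (48 * 65536 * 625 * C ^ 2 * Real.exp 24) * (m : ℝ) ^ 8 := by
    have : (C * (25 * (m : ℝ) ^ 4)) ^ 2 * 48 * Real.exp 24 * 65536 =
      (48 * 65536 * 625 * C ^ 2 * Real.exp 24) * (m : ℝ) ^ 8 := by ring
    linarith
  have h7 : (48 * 65536 * 625 * C ^ 2 * Real.exp 24) * (m : ℝ) ^ 8 < (m : ℝ) * (m : ℝ) ^ 8 :=
    mul_lt_mul_of_pos_right hbig (by positivity)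
  have h8 : (m : ℝ) * (m : ℝ) ^ 8 ≤ (m : ℝ) ^ 12 := by
    calc (m : ℝ) * (m : ℝ) ^ 8 = (m : ℝ) ^ 9 := by ring
      _ ≤ (m : ℝ) ^ 12 := pow_le_pow_right₀ hmR (by norm_num)
  linarith

end Pool.Agent.Run7.h325.RSI
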