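import Mathlib

set_option autoImplicit false

/-!
# The weighted bounds for rough singular integrals are not linear: interface

Plan (dimension 2).  `m ≥ 1`, `L = m ^ 4`, `N = 2 ^ L`, `δ = 1 / L`, `r0 = 1 / (16 m)`.
f-atoms: the points of `ℤ²`, w-atoms: the points of `(ℤ + 1/2)²`.  The weight is `w = U / V` with
`U = (dist / r0) ^ (-(2 - δ))` within `r0` of the w-atoms and `1` elsewhere, `V` the same for the f-atoms: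
`[w]_{A_2} ≤ 25 m ^ 4`.  `Ω = Psi - cc` is `≥ 1/2` in all directions that are within `hh / 4` of a
direction (w-atom) - (f-atom), for atoms in a box of side `4 N`, where `hh = 1 / (1024 * 4 ^ L)`; `cc ≤ 1/4`.
`f = ∑ φ (x - ζ I)` with `φ = r0² / ‖x‖²` on `2 rho' ≤ ‖x‖ ≤ rho / 2`.  At the points `x` within `rho` of a
w-atom in the middle of the box `T_Ω f (x) ≥ r0² L² / 2`, so that
`∫ (T_Ω f)² w ≥ c L³ ∫ f² w` with an absolute constant `c`; this is more than `(C · 1 · 25 L)² ∫ f² w` for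
large `L`.  For the commutator with `bb = log⁺ (1 / (4 dist (x, ℤ²)))` there is one more factor `L²`, and the
uniform boundedness principle gives one `Ω` for all `m`.
-/

namespace Pool.Agent.Run7.h325.RSI

open MeasureTheory Filter Topology Metric

noncomputable section

/-- the plane -/
abbrev E2 : Type := EuclideanSpace ℝ (Fin 2)

/-- The f-atom with index `p`. -/
def ze (p : ℤ × ℤ) : E2 := !₂[(p.1 : ℝ), (p.2 : ℝ)]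

/-- The w-atom with index `p`. -/
def zz (p : ℤ × ℤ) : E2 := !₂[(p.1 : ℝ) + 1 / 2, (p.2 : ℝ) + 1 / 2]

/-- all f-atoms -/
def Zf : Set E2 := Set.range ze

/-- all w-atoms -/
def Zw : Set E2 := Set.range zz

/-- radius of the atoms of the weight -/
def r0 (m : ℕ) : ℝ := 1 / (16 * (m : ℝ))

/-- the exponent `δ = 1 / m⁴` -/
def dl (m : ℕ) : ℝ := 1 / (m : ℝ) ^ 4

/-- angular width of the bumps of `Ω` -/
def hh (m : ℕ) : ℝ := 1 / (1024 * (4 : ℝ) ^ (m ^ 4))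

/-- outer radius of the atoms of `f` -/
def rho (m : ℕ) : ℝ := hh m / 32

/-- inner radius of the atoms of `f` -/
def rho' (m : ℕ) : ℝ := rho m * Real.exp (-(m : ℝ) ^ 4) / 4

/-- the radial profile -/
def Gr (m : ℕ) (t : ℝ) : ℝ := if 0 < t ∧ t < r0 m then (t / r0 m) ^ (-(2 - dl m)) else 1

/-- large near the w-atoms -/
def U (m : ℕ) (x : E2) : ℝ := Gr m (infDist x Zw)

/-- large near the f-atoms -/
def V (m : ℕ) (x : E2) : ℝ := Gr m (infDist x Zf)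

/-- the weight -/
def wt (m : ℕ) (x : E2) : ℝ := U m x / V m x

/-- indices of the f-atoms in use -/
def BI (m : ℕ) : Finset (ℤ × ℤ) :=
  Finset.Ico 0 (4 * 2 ^ (m ^ 4)) ×ˢ Finset.Ico 0 (4 * 2 ^ (m ^ 4))

/-- indices of the w-atoms in use -/
def BJ (m : ℕ) : Finset (ℤ × ℤ) :=
  Finset.Ico (2 ^ (m ^ 4)) (3 * 2 ^ (m ^ 4)) ×ˢ Finset.Ico (2 ^ (m ^ 4)) (3 * 2 ^ (m ^ 4))

/-- indices of the directions -/
def DD (m : ℕ) : Finset (ℤ × ℤ) :=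
  Finset.Ico (-(4 * 2 ^ (m ^ 4))) (4 * 2 ^ (m ^ 4)) ×ˢ Finset.Ico (-(4 * 2 ^ (m ^ 4))) (4 * 2 ^ (m ^ 4))

/-- the unit vectors of the directions w-atom minus f-atom -/
def Dhat (m : ℕ) : Set E2 := {u | ∃ p ∈ DD m, u = ‖zz p‖⁻¹ • zz p}

/-- Lipschitz bump function at `Dhat`, of width `hh` -/
def Psi (m : ℕ) (u : E2) : ℝ := max 0 (1 - infDist u (Dhat m) / hh m)

/-- the annulus -/
def Ann : Set E2 := {y | 1 < ‖y‖ ∧ ‖y‖ < 2}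

/-- the mean over the annulus of the 0-homogeneous function `y ↦ F (y / ‖y‖)` -/
def mean (F : E2 → ℝ) : ℝ := (∫ y in Ann, F (‖y‖⁻¹ • y)) / (volume Ann).toReal

/-- the kernel, homogeneous of degree 0 -/
def Om (m : ℕ) (y : E2) : ℝ := Psi m (‖y‖⁻¹ • y) - mean (Psi m)

/-- the profile of one atom of `f` -/
structure IsBump (m : ℕ) (φ : E2 → ℝ) : Prop where
  smooth : ContDiff ℝ (⊤ : ℕ∞) φ
  nonneg : ∀ x, 0 ≤ φ x
  le : ∀ x, φ x ≤ r0 m ^ 2 / ‖x‖ ^ 2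
  supp : ∀ x, φ x ≠ 0 → rho' m ≤ ‖x‖ ∧ ‖x‖ ≤ rho m
  eq : ∀ x, 2 * rho' m ≤ ‖x‖ → ‖x‖ ≤ rho m / 2 → φ x = r0 m ^ 2 / ‖x‖ ^ 2

/-- the test function -/
def ff (m : ℕ) (φ : E2 → ℝ) (x : E2) : ℝ := ∑ p ∈ BI m, φ (x - ze p)

/-- the symbol of the commutator -/
def bb (x : E2) : ℝ := max 0 (Real.log (1 / (4 * infDist x Zf)))

/-- the union of the balls around the w-atoms in use -/
def SS (m : ℕ) : Set E2 := ⋃ p ∈ BJ m, ball (zz p) (rho m)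

/-! ## Pieces for both theorems -/

/-- `BUMP` (80 lines). There is a bump for every `m ≥ 1`.  Take `s = ‖x‖²` (smooth in `x`), `a = rho' m`,
`b = rho m`, `4 a < b`, and `φ x = r0² * k s` with
`k s = s⁻¹ * Real.smoothTransition ((s - a²) / (3 a²)) * Real.smoothTransition ((b² - s) / (3 b² / 4))`.
`smoothTransition` is `0` on `(-∞, 0]` and `1` on `[1, ∞)`, so the first factor is `0` for `s ≤ a²` and `1` for
`s ≥ 4 a²`, the second is `1` for `s ≤ b² / 4` and `0` for `s ≥ b²`.  `k` is smooth on `ℝ`: near a point `s > 0` as a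
product, near a point `s < a²` it vanishes.  (`0 < hh`, `0 < rho' m`; `rho' m ≤ rho m * e^{-1} / 4`.) -/
def S_BUMP : Prop := ∀ m : ℕ, 1 ≤ m → ∃ φ : E2 → ℝ, IsBump m φ

/-- `RAD` (40 lines). Polar coordinates for radial functions:
`MeasureTheory.Measure.integral_fun_norm_addHaar`, `integrable_fun_norm_addHaar`,
and the volume of the unit ball is `π` (`EuclideanSpace.volume_ball_fin_two` or `EuclideanSpace.volume_ball`). -/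
def S_RAD : Prop :=
  (∀ g : ℝ → ℝ, ∫ x : E2, g ‖x‖ = 2 * Real.pi * ∫ r in Set.Ioi (0 : ℝ), r * g r) ∧
  (∀ g : ℝ → ℝ, Integrable (fun x : E2 => g ‖x‖) ↔ IntegrableOn (fun r => r * g r) (Set.Ioi (0 : ℝ))) ∧
  (∀ (x : E2) (r : ℝ), 0 ≤ r → (volume (ball x r)).toReal = Real.pi * r ^ 2)

/-- `GINT` (80 lines, uses RAD). For `0 < t ≤ r0`:
`∫_{‖x‖ < t} Gr ‖x‖ = 2 π ∫_0^t r (r / r0)^(-(2 - δ)) dr = 2 π r0² (t / r0)^δ / δ`, and `1 / δ = m⁴`.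
(`r (r / r0)^(-(2-δ)) = r0 (r / r0)^(δ - 1)`, `integral_rpow`.)  The point `x = 0` is a null set. -/
def S_GINT : Prop :=
  ∀ m : ℕ, 1 ≤ m → ∀ t : ℝ, 0 < t → t ≤ r0 m →
    IntegrableOn (fun x : E2 => Gr m ‖x‖) (ball 0 t) ∧
    ∫ x in ball (0 : E2) t, Gr m ‖x‖ = 2 * Real.pi * r0 m ^ 2 * (t / r0 m) ^ (dl m) * (m : ℝ) ^ 4

/-- `GRP` (50 lines). Elementary properties of the profile, `m ≥ 1`: `1 ≤ Gr t`; `Gr` is antitone on `(0, ∞)`;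
`Gr (t / 3) ≤ 9 Gr t` for `t > 0` (as `3 ^ (2 - δ) ≤ 9`); `Gr t = 1` for `r0 ≤ t`; `Gr` is measurable. -/
def S_GRP : Prop :=
  ∀ m : ℕ, 1 ≤ m →
    (∀ t, 1 ≤ Gr m t) ∧ (∀ s t, 0 < s → s ≤ t → Gr m t ≤ Gr m s) ∧
    (∀ t, 0 < t → Gr m (t / 3) ≤ 9 * Gr m t) ∧ (∀ t, r0 m ≤ t → Gr m t = 1) ∧ Measurable (Gr m)

/-- `A2LOC` (150 lines, uses RAD, GINT, GRP). The `A_2` condition for a single atom at `a`, ball `B = ball x R`,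
`d = ‖x - a‖`, `|B| = π R²`.
(i) `d < 2 R`, `3 R ≤ r0`: `B ⊆ ball a (3 R)`, so `∫_B G ≤ 2 π r0² (3R/r0)^δ m⁴` and
`G⁻¹ ≤ (3R/r0)^(2-δ)` on `B`; the product is `≤ 2 π r0² m⁴ (3R/r0)² π R² = 18 m⁴ (π R²)²`.
(ii) `d < 2 R`, `3 R > r0`: `∫_B G ≤ |B| + ∫_{ball a r0} G = π R² + 2 π r0² m⁴ ≤ π R² (1 + 18 m⁴)`
(as `r0 ≤ 3 R`), and `∫_B G⁻¹ ≤ |B|`.
(iii) `2 R ≤ d`: on `B` one has `d / 2 ≤ ‖y - a‖ ≤ 3 d / 2`, so `G ≤ Gr (d / 2) ≤ 9 Gr (3 d / 2)` and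
`G⁻¹ ≤ 1 / Gr (3 d / 2)`; the product is `≤ 9 |B|²`. -/
def S_A2LOC : Prop :=
  ∀ m : ℕ, 1 ≤ m → ∀ (a x : E2) (R : ℝ), 0 < R →
    IntegrableOn (fun y => Gr m ‖y - a‖) (ball x R) ∧
    IntegrableOn (fun y => (Gr m ‖y - a‖)⁻¹) (ball x R) ∧
    (∫ y in ball x R, Gr m ‖y - a‖) * (∫ y in ball x R, (Gr m ‖y - a‖)⁻¹)
      ≤ 19 * (m : ℝ) ^ 4 * (Real.pi * R ^ 2) ^ 2

/-- `LAT` (90 lines). Geometry of the two lattices.  Two different points of `ℤ²` are at distance `≥ 1`, so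
`‖x - a‖ ≤ 1/4` gives `infDist x Zf = ‖x - a‖`; a point of `ℤ²` and a point of `(ℤ + 1/2)²` are at distance
`≥ 1/√2 > 1/2`.  (`infDist_le_dist_of_mem`, `le_infDist`/`not_mem...`; coordinates: `EuclideanSpace.norm_eq`,
`Fin.sum_univ_two`.) -/
def S_LAT : Prop :=
  Zf.Nonempty ∧ Zw.Nonempty ∧
  (∀ a ∈ Zf, ∀ x : E2, ‖x - a‖ ≤ 1 / 4 → infDist x Zf = ‖x - a‖ ∧ 1 / 4 ≤ infDist x Zw) ∧
  (∀ a ∈ Zw, ∀ x : E2, ‖x - a‖ ≤ 1 / 4 → infDist x Zw = ‖x - a‖ ∧ 1 / 4 ≤ infDist x Zf)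

/-- `CNT` (80 lines). The number of lattice points of either kind within `R + 1/16` of `x` is at most `400 R²`
if `R ≥ 1/16`: each coordinate lies in an interval of length `2 R + 1/8`, which contains at most
`2 R + 9/8 ≤ 20 R` integers (or half-integers). -/
def S_CNT : Prop :=
  ∀ (x : E2) (R : ℝ), 1 / 16 ≤ R →
    (∃ s : Finset (ℤ × ℤ), (∀ p : ℤ × ℤ, ‖x - ze p‖ ≤ R + 1 / 16 → p ∈ s) ∧ (s.card : ℝ) ≤ 400 * R ^ 2) ∧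
    (∃ s : Finset (ℤ × ℤ), (∀ p : ℤ × ℤ, ‖x - zz p‖ ≤ R + 1 / 16 → p ∈ s) ∧ (s.card : ℝ) ≤ 400 * R ^ 2)

/-- `LARGE` (120 lines, uses RAD, GINT, GRP, LAT, CNT). For `R ≥ 1/16`: `∫_{ball x R} U ≤ 5 m² (π R²)` and the same
for `V`.  `U ≤ 1 + ∑_{p ∈ s} 1_{ball (zz p) r0} Gr ‖· - zz p‖` on the ball (if `infDist y Zw < r0 ≤ 1/16` there is
a w-atom `a` with `‖y - a‖ < r0`, and `‖x - a‖ ≤ R + 1/16`), and each term has the integral `2 π r0² m⁴`: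
`∫ ≤ π R² + 400 R² · 2 π r0² m⁴ = π R² (1 + 800 m² / 256) ≤ 5 m² π R²`. -/
def S_LARGE : Prop :=
  ∀ m : ℕ, 1 ≤ m → ∀ (x : E2) (R : ℝ), 1 / 16 ≤ R →
    (IntegrableOn (U m) (ball x R) ∧ ∫ y in ball x R, U m y ≤ 5 * (m : ℝ) ^ 2 * (Real.pi * R ^ 2)) ∧
    (IntegrableOn (V m) (ball x R) ∧ ∫ y in ball x R, V m y ≤ 5 * (m : ℝ) ^ 2 * (Real.pi * R ^ 2))

/-- `A2` (100 lines, uses RAD, GRP, A2LOC, LAT, LARGE). The weight is positive and measurable and satisfies the `A_2`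
condition with the constant `25 m⁴`.  `R ≥ 1/16`: `wt ≤ U`, `wt⁻¹ ≤ V`.  `R < 1/16`: if some `y₀` in the ball has
`infDist y₀ Zf < r0 ≤ 1/16`, take the f-atom `a` with `‖y₀ - a‖ < r0`; all `y` in the ball have `‖y - a‖ ≤ 1/4`, so
`U = 1` and `V = Gr ‖y - a‖` there, and A2LOC applies (with the two factors exchanged); the same for `Zw`;
otherwise `wt = 1` on the ball. -/
def S_A2 : Prop :=
  ∀ m : ℕ, 1 ≤ m →
    Measurable (wt m) ∧ (∀ x, 0 < wt m x) ∧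
    ∀ (x : E2) (r : ℝ), 0 < r →
      IntegrableOn (wt m) (ball x r) ∧ IntegrableOn (fun y => (wt m y)⁻¹) (ball x r) ∧
      (∫ y in ball x r, wt m y) * (∫ y in ball x r, (wt m y)⁻¹)
        ≤ 25 * (m : ℝ) ^ 4 * (volume (ball x r)).toReal ^ 2

/-- `MASS` (60 lines, uses RAD). `∫ φ ≥ ∫_{2 rho' ≤ ‖x‖ ≤ rho/2} r0² / ‖x‖² = 2 π r0² log (rho / (4 rho')) = 2 π r0² m⁴`. -/
def S_MASS : Prop :=
  ∀ (m : ℕ) (φ : E2 → ℝ), 1 ≤ m → IsBump m φ →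
    Continuous φ ∧ HasCompactSupport φ ∧ Integrable φ ∧
    2 * Real.pi * r0 m ^ 2 * (m : ℝ) ^ 4 ≤ ∫ x, φ x

/-- `NRM` (90 lines, uses RAD). `∫ φ² / Gr ‖x‖ ≤ ∫_{rho' ≤ ‖x‖ ≤ rho} r0⁴ ‖x‖⁻⁴ (‖x‖/r0)^(2-δ)`
`= r0² ∫ ‖x‖⁻² (r0/‖x‖)^δ ≤ r0² e^12 · 2 π log (rho / rho')`, as
`(r0/‖x‖)^δ ≤ (r0/rho')^δ ≤ (2^13 (4 e)^L)^(1/L) ≤ 2^13 · 4 e ≤ e^12`, `L = m⁴`, and `log (rho/rho') = L + log 4 ≤ 3 L`.
(`r0 ≤ 1/16`, `rho' = e^{-L} / (4 · 32 · 1024 · 4^L)`.) -/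
def S_NRM : Prop :=
  ∀ (m : ℕ) (φ : E2 → ℝ), 1 ≤ m → IsBump m φ →
    Integrable (fun x => φ x ^ 2 * (Gr m ‖x‖)⁻¹) ∧
    ∫ x, φ x ^ 2 * (Gr m ‖x‖)⁻¹ ≤ Real.exp 12 * (6 * Real.pi * r0 m ^ 2 * (m : ℝ) ^ 4)

/-- `FN` (80 lines, uses NRM, LAT). `f² w = ∑_{p ∈ BI} φ(x - ze p)² / Gr ‖x - ze p‖` (disjoint supports, `rho ≤ 1/4`),
and `BI` has `16 · 4^L` elements. -/
def S_FN : Prop :=
  ∀ (m : ℕ) (φ : E2 → ℝ), 1 ≤ m → IsBump m φ →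
    ∫⁻ x, ENNReal.ofReal ((ff m φ x) ^ 2 * wt m x)
      ≤ ENNReal.ofReal (16 * (4 : ℝ) ^ (m ^ 4) * (Real.exp 12 * (6 * Real.pi * r0 m ^ 2 * (m : ℝ) ^ 4)))

/-- `WM` (60 lines, uses GINT, LAT). `w = Gr ‖x - zz p‖` on `ball (zz p) rho`, whose integral is
`2 π r0² (rho/r0)^δ m⁴`, and `(rho/r0)^δ ≥ (2^{-11} 4^{-L})^{1/L} ≥ 2^{-11} / 4 ≥ e^{-12}` (`rho / r0 = 16 m 2^{-15} 4^{-L}`). -/
def S_WM : Prop :=
  ∀ (m : ℕ) (p : ℤ × ℤ), 1 ≤ m →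
    IntegrableOn (wt m) (ball (zz p) (rho m)) ∧
    Real.exp (-12) * (2 * Real.pi * r0 m ^ 2 * (m : ℝ) ^ 4) ≤ ∫ x in ball (zz p) (rho m), wt m x

/-- `SUM` (80 lines). For `J ∈ BJ`: the differences `J - I`, `I ∈ BI`, contain all `(s, t)` with `0 ≤ s, t < 2^L`,
and those with `2^k ≤ max (s, t) < 2^(k+1)`, `k < L`, number `3 · 4^k`; for them
`‖zz (s, t)‖ + 1 ≤ √2 · 2^(k+1) + 1 ≤ 2^(k+2)`, so each `k < L` contributes at least `3 / 16`. -/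
def S_SUM : Prop :=
  ∀ (m : ℕ) (J : ℤ × ℤ), 1 ≤ m → J ∈ BJ m →
    3 / 16 * (m : ℝ) ^ 4 ≤ ∑ I ∈ BI m, 1 / (‖zz (J - I)‖ + 1) ^ 2

/-- `DIR` (80 lines). `x - y = P + e`, `P = zz (J - I) = zz J - ze I`, `‖e‖ ≤ 2 rho = hh / 16`, `‖P‖ ≥ 1/√2`:
`‖(x-y)/‖x-y‖ - P/‖P‖‖ ≤ 2 ‖e‖ / ‖P‖ ≤ 3 ‖e‖ ≤ hh / 4`, so `Psi ≥ 3/4`. -/
def S_DIR : Prop :=
  ∀ (m : ℕ) (I J : ℤ × ℤ) (x y : E2), 1 ≤ m → I ∈ BI m → J ∈ BJ m →
    ‖x - zz J‖ ≤ rho m → ‖y - ze I‖ ≤ rho m →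
    3 / 4 ≤ Psi m (‖x - y‖⁻¹ • (x - y)) ∧ 1 / 2 ≤ ‖x - y‖ ∧ ‖x - y‖ ≤ ‖zz (J - I)‖ + 1

/-- `PSI` (40 lines). `Psi` is continuous, `0 ≤ Psi ≤ 1`, and it is the function of a bounded continuous function of
norm at most `1`. -/
def S_PSI : Prop :=
  ∀ m : ℕ, 1 ≤ m → Continuous (Psi m) ∧ (∀ u, 0 ≤ Psi m u) ∧ (∀ u, Psi m u ≤ 1) ∧
    ∃ F : BoundedContinuousFunction E2 ℝ, (∀ u, F u = Psi m u) ∧ ‖F‖ ≤ 1

/-- `CM` (120 lines, uses PSI, RAD). `0 ≤ mean Psi ≤ 1/4`.  `Psi (y/‖y‖) ≤ ∑_{p ∈ DD} 1 [‖y/‖y‖ - P/‖P‖‖ < hh]`, there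
are `64 · 4^L` indices, and `{y : 1 < ‖y‖ < 2, ‖y/‖y‖ - u‖ < hh}` has area `≤ 16 hh`: e.g. it lies in
`{y : |⟪y, u⟫| ≤ 2, |⟪y, u'⟫| ≤ 2 hh}` with `u' ⊥ u` a unit vector (a rectangle of area `16 hh`; measure preserving rotation);
any bound `≤ 36 hh` is good enough.  The volume of the annulus is `3 π ≥ 9`; the quotient is at
most `64 · 4^L · 16 hh / 9 = 1/9`. -/
def S_CM : Prop := ∀ m : ℕ, 1 ≤ m → 0 ≤ mean (Psi m) ∧ mean (Psi m) ≤ 1 / 4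

/-- `OMG` (60 lines, uses PSI, CM). Properties of `Om` (the two annuli differ by a null set:
`MeasureTheory.Measure.addHaar_sphere`). -/
def S_OMG : Prop :=
  ∀ m : ℕ, 1 ≤ m → Measurable (Om m) ∧ (∀ x, |Om m x| ≤ 1) ∧ (∀ x, ∀ t : ℝ, 0 < t → Om m (t • x) = Om m x) ∧
    (∫ y in {y : E2 | 1 ≤ ‖y‖ ∧ ‖y‖ ≤ 2}, Om m y) = 0 ∧
    (∀ F : E2 → ℝ, (∃ M, ∀ u, |F u| ≤ M) → Measurable F →
      (∫ y in {y : E2 | 1 < ‖y‖ ∧ ‖y‖ < 2}, (F (‖y‖⁻¹ • y) - mean F)) = 0)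

/-- `FFP` (60 lines, uses MASS). Properties of `f`. -/
def S_FFP : Prop :=
  ∀ (m : ℕ) (φ : E2 → ℝ), 1 ≤ m → IsBump m φ →
    ContDiff ℝ (⊤ : ℕ∞) (ff m φ) ∧ HasCompactSupport (ff m φ) ∧ (∀ x, 0 ≤ ff m φ x) ∧
    (∀ x, ff m φ x ≠ 0 → ∃ p ∈ BI m, rho' m ≤ ‖x - ze p‖ ∧ ‖x - ze p‖ ≤ rho m)

/-- `TLOW` (120 lines, uses MASS, SUM, DIR, CM, PSI). The lower bound of the (weighted) singular integral near the
w-atoms: with `β ≥ β0 ≥ 0` on the support of `f`,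
`∫ β f Om(x - y) / ‖x - y‖² ≥ ∑_I β0 (1/2) ∫ φ / (‖zz (J - I)‖ + 1)² ≥ β0 (1/2) (2 π r0² m⁴) (3/16) m⁴ ≥ β0 r0² m⁸ / 2`
(`Om ≥ 3/4 - 1/4` on the support, `3 π / 16 ≥ 1/2`).  Integrability of the integrand: it is `β f` times a bounded
measurable function (`‖x - y‖ ≥ 1/2` on the support). -/
def S_TLOW : Prop :=
  ∀ (m : ℕ) (φ β : E2 → ℝ) (β0 : ℝ) (J : ℤ × ℤ) (x : E2), 1 ≤ m → IsBump m φ → J ∈ BJ m →
    ‖x - zz J‖ ≤ rho m → 0 ≤ β0 → (∀ y, ff m φ y ≠ 0 → β0 ≤ β y) → Integrable (fun y => β y * ff m φ y) →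
    β0 * (r0 m ^ 2 * (m : ℝ) ^ 8 / 2) ≤ ∫ y, β y * ff m φ y * Om m (x - y) / ‖x - y‖ ^ 2

/-! ## Pieces for S05022 -/

/-- `PV` (150 lines). Existence of the principal value for smooth compactly supported `f` and bounded measurable `Ω`,
homogeneous of degree 0, with mean zero on the annulus.  (1) `∫_{a < ‖y‖ < b} Ω y / ‖y‖² = 0` for `0 < a < b`: let
`h a b` be this integral; by homogeneity (`y ↦ t y`, Jacobian `t²`) `h (t a) (t b) = h a b`; so `a ↦ h 1 a` satisfies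
`h 1 (a b) = h 1 a + h 1 b` and is continuous, hence `h 1 a = c log a`.  Similarly `H a b = ∫_{a<‖y‖<b} Ω = c' (b² - a²)` with
`c' = 0` by hypothesis; then `h = 0` by layer cake (`1/‖y‖² = 1/b² + ∫_{‖y‖}^b 2 r⁻³ dr`).  Or use
`MeasureTheory.Measure.measurePreserving_homeomorphUnitSphereProd` (polar coordinates): both integrals are
`(∫_{sphere} Ω) · (radial integral)`.
(2) for `ε < 1`: `∫_{ε<‖y‖} f (x - y) Ω y / ‖y‖² = ∫_{ε<‖y‖≤1} (f (x - y) - f x) Ω y / ‖y‖² + ∫_{1<‖y‖} f (x - y) Ω y / ‖y‖²`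
and `|f (x - y) - f x| ≤ K ‖y‖`, so the integrand is dominated by `K M / ‖y‖`, integrable on the unit ball. -/
def S_PV : Prop :=
  ∀ (f Ω : E2 → ℝ) (M : ℝ), ContDiff ℝ (⊤ : ℕ∞) f → HasCompactSupport f → Measurable Ω → (∀ x, |Ω x| ≤ M) →
    (∀ x, ∀ t : ℝ, 0 < t → Ω (t • x) = Ω x) →
    (∫ y in {y : E2 | 1 ≤ ‖y‖ ∧ ‖y‖ ≤ 2}, Ω y) = 0 →
    ∀ x : E2, ∃ t : ℝ, Tendsto (fun ε : ℝ => ∫ y in {y : E2 | ε < ‖y‖}, f (x - y) * Ω y / ‖y‖ ^ 2) (𝓝[>] 0) (𝓝 t)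

/-- `FAR` (60 lines). If `f` vanishes on `ball x η` the truncated integral does not depend on `ε < η`, and equals the
full integral; then substitute `y → x - y` (`integral_sub_left_eq_self`). -/
def S_FAR : Prop :=
  ∀ (f Ω : E2 → ℝ) (x : E2) (η t : ℝ), 0 < η → (∀ y, ‖y - x‖ < η → f y = 0) →
    Tendsto (fun ε : ℝ => ∫ y in {y : E2 | ε < ‖y‖}, f (x - y) * Ω y / ‖y‖ ^ 2) (𝓝[>] 0) (𝓝 t) →
    t = ∫ y, 1 * f y * Ω (x - y) / ‖x - y‖ ^ 2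

/-- `TN` (80 lines, uses TLOW, FAR, FFP, WM, LAT, OMG). `∫ T² w ≥ #BJ · (r0² m⁸ / 2)² · e^{-12} 2 π r0² m⁴`, `#BJ = 4 · 4^L`
(the balls `ball (zz p) rho` are disjoint, `f = 0` on `ball x (1/4)` for `x` in them). -/
def S_TN : Prop :=
  ∀ (m : ℕ) (φ T : E2 → ℝ), 1 ≤ m → IsBump m φ →
    (∀ x, Tendsto (fun ε : ℝ => ∫ y in {y : E2 | ε < ‖y‖}, ff m φ (x - y) * Om m y / ‖y‖ ^ 2) (𝓝[>] 0) (𝓝 (T x))) →
    ENNReal.ofReal (4 * (4 : ℝ) ^ (m ^ 4) * ((r0 m ^ 2 * (m : ℝ) ^ 8 / 2) ^ 2 *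
      (Real.exp (-12) * (2 * Real.pi * r0 m ^ 2 * (m : ℝ) ^ 4)))) ≤ ∫⁻ x, ENNReal.ofReal ((T x) ^ 2 * wt m x)

/-- `MAIN1` (60 lines, uses BUMP, A2, FN, OMG, FFP, PV, TN). The theorem for `d = 2`.  For given `C > 0` take `m` with
`(C · 1 · 25 m⁴)² · 16 · 4^L e^12 6 π r0² m⁴ < 4 · 4^L (r0² m⁸ / 2)² e^{-12} 2 π r0² m⁴`; as `r0⁴ = 2^{-16} m^{-4}` this is
`48 · 65536 · e^24 · 625 C² m⁸ < m^12`, true for large `m`. -/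
def S_MAIN1 : Prop :=
  ¬ (∃ C : ℝ, 0 < C ∧
      ∀ (Ω : E2 → ℝ) (M : ℝ),
        Measurable Ω →
        (∀ x, |Ω x| ≤ M) →
        (∀ x, ∀ t : ℝ, 0 < t → Ω (t • x) = Ω x) →
        (∫ y in {y : E2 | 1 ≤ ‖y‖ ∧ ‖y‖ ≤ 2}, Ω y) = 0 →
        ∀ (w : E2 → ℝ) (A : ℝ),
          (∀ x, 0 < w x) →
          (∀ (x : E2) (r : ℝ), 0 < r →
            IntegrableOn w (Metric.ball x r) ∧
            IntegrableOn (fun y => (w y)⁻¹) (Metric.ball x r) ∧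
            (∫ y in Metric.ball x r, w y) * (∫ y in Metric.ball x r, (w y)⁻¹)
              ≤ A * (volume (Metric.ball x r)).toReal ^ 2) →
          ∀ (f : E2 → ℝ),
            ContDiff ℝ (⊤ : ℕ∞) f → HasCompactSupport f →
            ∀ (T : E2 → ℝ),
              (∀ x, Tendsto
                (fun ε : ℝ => ∫ y in {y : E2 | ε < ‖y‖}, f (x - y) * Ω y / ‖y‖ ^ 2)
                (𝓝[>] 0) (𝓝 (T x))) →
              ∫⁻ x, ENNReal.ofReal ((T x) ^ 2 * w x)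
                ≤ ENNReal.ofReal ((C * M * A) ^ 2) *
                  ∫⁻ x, ENNReal.ofReal ((f x) ^ 2 * w x))

/-! ## Pieces for S05002 -/

/-- `BBP` (60 lines, uses LAT, FFP). On the support of `f`: `infDist y Zf ≤ rho`, so
`bb y ≥ log (1 / (4 rho)) = log (2^13 4^L) ≥ m⁴`; near the w-atoms `infDist x Zf ≥ 1/4` and `bb x = 0`; `bb` is measurable,
`bb ≥ 0`, and `bb · f` is integrable (on the support of `f` one has `infDist y Zf ≥ rho'`, so `bb` is bounded there). -/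
def S_BBP : Prop :=
  ∀ (m : ℕ) (φ : E2 → ℝ), 1 ≤ m → IsBump m φ →
    (∀ y, ff m φ y ≠ 0 → (m : ℝ) ^ 4 ≤ bb y) ∧
    (∀ (p : ℤ × ℤ) (x : E2), ‖x - zz p‖ ≤ rho m → bb x = 0) ∧
    Measurable bb ∧ (∀ x, 0 ≤ bb x) ∧ (∃ K : ℝ, ∀ y, |bb y * ff m φ y| ≤ K) ∧
    Integrable (fun y => bb y * ff m φ y)

/-- `BMO` (150 lines, uses LAT, CNT, RAD). `bb` is locally integrable and in BMO.  `bb` is locally
`log⁺ (1 / (4 ‖y - a‖))` at each `a ∈ ℤ²` and `0` at distance `≥ 1/4`; `∫_{ball a t} log⁺ (c / ‖y - a‖) ≤ π c² / 2`.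
Ball `B = ball x R`.  `R ≥ 1/16`: `⨍_B |bb - bb_B| ≤ 2 ⨍_B bb ≤ 2 · (number of atoms within R + 1/4) · (π / 32) / (π R²)`.
`R < 1/16`: if `infDist ≥ 1/4` on `B` then `bb = 0` on `B`; otherwise one atom `a` describes `bb` on `B` (`‖y - a‖ ≤ 3/8` on `B`,
and `infDist y Zf = ‖y - a‖` as long as `‖y - a‖ ≤ 1/2`; count with CNT for `R + 3/16`).  If
`‖x - a‖ ≥ 2 R` the values `‖y - a‖` vary by the factor `3`, so `bb` varies by at most `log 3`.  If `‖x - a‖ < 2 R`,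
`B ⊆ ball a (3R)`, and with `c = log⁺ (1 / (12 R))` one has `0 ≤ bb - c ≤ log⁺ (3 R / ‖y - a‖)`, so
`⨍_B |bb - c| ≤ (1/(π R²)) (π (3R)² / 2) = 9/2` and `⨍_B |bb - bb_B| ≤ 9`. -/
def S_BMO : Prop :=
  LocallyIntegrable bb volume ∧
  ∃ M : ℝ, ∀ (x : E2) (r : ℝ), 0 < r → (⨍ y in ball x r, |bb y - ⨍ z in ball x r, bb z|) ≤ M

/-- `PV2` (120 lines, uses BBP, FFP). For `x ∉ ℤ²` the function `bb` is Lipschitz near `x`, so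
`y ↦ (bb x - bb y) Ω(..) / ‖x - y‖² f y` is integrable (near `x` it is `O(1 / ‖x - y‖)`, away from `x` it is bounded by
`(|bb x| |f y| + |bb y f y|) M / η²`), and the truncated integrals tend to the full integral (dominated convergence).
`ℤ²` is a null set (countable). -/
def S_PV2 : Prop :=
  ∀ (m : ℕ) (φ Ω : E2 → ℝ) (M : ℝ), 1 ≤ m → IsBump m φ → Measurable Ω → (∀ y, |Ω y| ≤ M) →
    ∀ᵐ x ∂(volume : Measure E2), Tendsto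
      (fun ε : ℝ => ∫ y in {y : E2 | ε < dist x y},
        (bb x - bb y) * (Ω (‖x - y‖⁻¹ • (x - y)) / ‖x - y‖ ^ 2) * ff m φ y)
      (nhdsWithin 0 (Set.Ioi 0))
      (nhds (∫ y, (bb x - bb y) * (Ω (‖x - y‖⁻¹ • (x - y)) / ‖x - y‖ ^ 2) * ff m φ y))

/-- the functional of the uniform boundedness principle -/
def Lam (m : ℕ) (φ F : E2 → ℝ) : ℝ :=
  ∫ x in SS m, (∫ y, bb y * ff m φ y * (F (‖x - y‖⁻¹ • (x - y)) - mean F) / ‖x - y‖ ^ 2) * wt m x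

/-- `LAM` (120 lines, uses BBP, FFP, DIR, WM). `Lam` is a bounded linear functional on the bounded continuous functions:
for `x ∈ SS` and `f y ≠ 0` one has `‖x - y‖ ≥ 1/2`, so the inner integrand is bounded by `2 ‖F‖ |bb y f y| · 4`,
and `wt` is integrable on `SS` (finite union of balls).  (`LinearMap.mkContinuous`; measurability of the inner
integral in `x`: `StronglyMeasurable.integral_prod_right`.) -/
def S_LAM : Prop :=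
  ∀ (m : ℕ) (φ : E2 → ℝ), 1 ≤ m → IsBump m φ →
    ∃ Λ : BoundedContinuousFunction E2 ℝ →L[ℝ] ℝ, ∀ F : BoundedContinuousFunction E2 ℝ, Λ F = Lam m φ F

/-- `LLOW` (60 lines, uses TLOW, BBP, WM, LAM). `Lam (Psi) ≥ m⁴ (r0² m⁸ / 2) ∫_SS wt`. -/
def S_LLOW : Prop :=
  ∀ (m : ℕ) (φ : E2 → ℝ), 1 ≤ m → IsBump m φ →
    (m : ℝ) ^ 4 * (r0 m ^ 2 * (m : ℝ) ^ 8 / 2) * (∫ x in SS m, wt m x) ≤ Lam m φ (Psi m)

/-- `SW` (40 lines, uses WM, LAT). The mass of the w-atoms in use; they are disjoint and number `4 · 4^L`. -/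
def S_SW : Prop :=
  ∀ m : ℕ, 1 ≤ m → IntegrableOn (wt m) (SS m) ∧
    4 * (4 : ℝ) ^ (m ^ 4) * (Real.exp (-12) * (2 * Real.pi * r0 m ^ 2 * (m : ℝ) ^ 4)) ≤ ∫ x in SS m, wt m x

/-- `CS` (100 lines, uses BBP, SW, DIR, FFP). Cauchy-Schwarz on `SS`, where `bb x = 0`: if `g x` is the full integral of the
commutator and `∫⁻ g² w ≤ B` then `|Lam F| ≤ √B √(∫_SS wt)`. -/
def S_CS : Prop :=
  ∀ (m : ℕ) (φ : E2 → ℝ) (F : BoundedContinuousFunction E2 ℝ) (B : ℝ), 1 ≤ m → IsBump m φ → 0 ≤ B →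
    ∫⁻ x, ENNReal.ofReal
      ((∫ y, (bb x - bb y) * ((F (‖x - y‖⁻¹ • (x - y)) - mean F) / ‖x - y‖ ^ 2) * ff m φ y) ^ 2 * wt m x)
      ≤ ENNReal.ofReal B →
    |Lam m φ F| ≤ Real.sqrt B * Real.sqrt (∫ x in SS m, wt m x)

/-- `MAIN2` (120 lines, uses BUMP, A2, FN, OMG, FFP, PSI, BMO, PV2, LAM, LLOW, SW, CS). The theorem for `d = 2`.  Suppose the
contrary and apply it to `bb` and, for each bounded continuous `F`, to `Ω = F - mean F`; this gives `C_F` (wlog `≥ 0`) with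
`|Lam m φ F| ≤ √(C_F (25 m⁴)⁴ N m) √(W m)`, where `N m` is the bound of FN and `W m = ∫_SS wt`.  With
`Λ'_m = Λ_m / ((25 m⁴)² √(N m) √(W m))` the family `Λ'_m F` is bounded for each `F`, so `‖Λ'_m‖ ≤ K`
(`banach_steinhaus`).  But `Λ'_m (Psi m) ≥ m⁴ (r0² m⁸ / 2) √(W m / N m) / (625 m⁸) ≥ c m² `, as `r0² = 1 / (256 m²)` and
`W m / N m ≥ e^{-24} / 12`, and `‖Psi m‖ ≤ 1`: a contradiction for large `m`. -/
def S_MAIN2 : Prop :=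
  ¬ (∀ (Ω : E2 → ℝ), Measurable Ω → (∃ M : ℝ, ∀ y, |Ω y| ≤ M) →
      (∫ y in {y : E2 | 1 < ‖y‖ ∧ ‖y‖ < 2}, Ω (‖y‖⁻¹ • y)) = 0 →
    ∀ (b : E2 → ℝ), MeasureTheory.LocallyIntegrable b MeasureTheory.volume →
      (∃ M : ℝ, ∀ (x : E2) (r : ℝ), 0 < r →
        (⨍ y in Metric.ball x r, |b y - ⨍ z in Metric.ball x r, b z|) ≤ M) →
    ∃ C : ℝ, ∀ (w : E2 → ℝ) (A : ℝ),
      MeasureTheory.LocallyIntegrable w MeasureTheory.volume →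
      MeasureTheory.LocallyIntegrable (fun x => (w x)⁻¹) MeasureTheory.volume →
      (∀ᵐ x ∂MeasureTheory.volume, 0 < w x) →
      (∀ (x : E2) (r : ℝ), 0 < r →
        (⨍ y in Metric.ball x r, w y) * (⨍ y in Metric.ball x r, (w y)⁻¹) ≤ A) →
      ∀ (f g : E2 → ℝ), Measurable f → HasCompactSupport f →
        (∃ K : ℝ, ∀ x, |f x| ≤ K) →
        (∀ᵐ x ∂MeasureTheory.volume, Filter.Tendsto
          (fun ε : ℝ => ∫ y in {y : E2 | ε < dist x y},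
            (b x - b y) * (Ω (‖x - y‖⁻¹ • (x - y)) / ‖x - y‖ ^ 2) * f y)
          (nhdsWithin 0 (Set.Ioi 0)) (nhds (g x))) →
        ∫⁻ x, ENNReal.ofReal ((g x) ^ 2 * w x)
          ≤ ENNReal.ofReal (C * A ^ 4) * ∫⁻ x, ENNReal.ofReal ((f x) ^ 2 * w x))

end

end Pool.Agent.Run7.h325.RSI
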